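import Mathlib

/-!
# No universal ultrafilter for completeness of topological vector spaces (MP_6ca30a_an, Q1 and Q2)

Let `𝓤` be a free ultrafilter on `ℕ`, let `Z` be the space of all functions `ℝ → 𝕜` with the topology
of pointwise convergence and let `D` be a countable dense subset of `Z`. Let `X` be the smallest
linear subspace of `Z` which contains `D` and is closed under limits of sequences over `𝓤`. Then `X`
is complete over `𝓤` and has at most continuum many points, so some `p ∈ Z` is not in `X`. The trace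
on `D` of the neighbourhood filter of `p` gives a free filter on `ℕ` over which `X` is not complete.
-/

set_option autoImplicit false

open Set Topology Filter
open scoped Cardinal

namespace Pool.Agent.Results.MP_6ca30a_an.NoUniversalUltrafilter

/-- `F` is a free filter on `ℕ`: a proper filter which contains all cofinite sets. -/
def IsFreeFilter (F : Filter ℕ) : Prop := F.NeBot ∧ ∀ A : Set ℕ, Aᶜ.Finite → A ∈ F

section defs

variable (X : Type) [AddCommGroup X] [TopologicalSpace X]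

variable {X} in
/-- The sequence `x` is Cauchy over the filter `F`. -/
def IsCauchyOver (F : Filter ℕ) (x : ℕ → X) : Prop :=
  ∀ U ∈ 𝓝 (0 : X), ∃ B ∈ F, ∀ m ∈ B, ∀ n ∈ B, x m - x n ∈ U

variable {X} in
/-- The sequence `x` converges to `y` over the filter `F`. -/
def ConvergesOver (F : Filter ℕ) (x : ℕ → X) (y : X) : Prop :=
  ∀ V ∈ 𝓝 y, ∃ A ∈ F, ∀ n ∈ A, x n ∈ V

/-- `X` is complete over the filter `F`. -/
def IsCompleteOver (F : Filter ℕ) : Prop :=
  ∀ x : ℕ → X, IsCauchyOver F x → ∃ y, ConvergesOver F x y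

/-- `X` is countably complete: it is complete over every free filter on `ℕ`. -/
def IsCountablyComplete : Prop := ∀ F : Filter ℕ, IsFreeFilter F → IsCompleteOver X F

end defs

variable {𝕜 : Type} [RCLike 𝕜]

/-- the labels of the terms -/
abbrev Lbl (𝕜 : Type) : Type := ℕ ⊕ (𝕜 × 𝕜) ⊕ Unit

/-- arities -/
def Ar (𝕜 : Type) : Lbl 𝕜 → Type
  | .inl _ => Empty
  | .inr (.inl _) => Bool
  | .inr (.inr _) => ℕ

open Classical in
/-- one evaluation step -/
noncomputable def step (U : Filter ℕ) (d : ℕ → (ℝ → 𝕜)) :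
    (Σ a : Lbl 𝕜, Ar 𝕜 a → (ℝ → 𝕜)) → (ℝ → 𝕜)
  | ⟨.inl n, _⟩ => d n
  | ⟨.inr (.inl (a, b)), f⟩ => a • f true + b • f false
  | ⟨.inr (.inr _), f⟩ => if h : ∃ z, Tendsto (fun n : ℕ => f n) U (𝓝 z) then h.choose else 0

/-- evaluation of terms -/
noncomputable def ev (U : Filter ℕ) (d : ℕ → (ℝ → 𝕜)) : WType (Ar 𝕜) → (ℝ → 𝕜) :=
  WType.elim _ (step U d)

/-- generators -/
def tGen (n : ℕ) : WType (Ar 𝕜) := ⟨.inl n, fun e : Empty => e.elim⟩

/-- linear combinations -/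
def tLin (a b : 𝕜) (s t : WType (Ar 𝕜)) : WType (Ar 𝕜) :=
  ⟨.inr (.inl (a, b)), fun i : Bool => if i then s else t⟩

/-- limits -/
def tLim (t : ℕ → WType (Ar 𝕜)) : WType (Ar 𝕜) := ⟨.inr (.inr ()), fun i : ℕ => t i⟩

lemma ev_tGen (U : Filter ℕ) (d : ℕ → (ℝ → 𝕜)) (n : ℕ) : ev U d (tGen n) = d n := rfl

lemma ev_tLin (U : Filter ℕ) (d : ℕ → (ℝ → 𝕜)) (a b : 𝕜) (s t : WType (Ar 𝕜)) :
    ev U d (tLin a b s t) = a • ev U d s + b • ev U d t := rfl

open Classical in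
lemma ev_tLim (U : Filter ℕ) (d : ℕ → (ℝ → 𝕜)) (t : ℕ → WType (Ar 𝕜)) :
    ev U d (tLim t) =
      if h : ∃ z, Tendsto (fun n : ℕ => ev U d (t n)) U (𝓝 z) then h.choose else 0 := rfl

/-- the space -/
noncomputable def XS (U : Filter ℕ) (d : ℕ → (ℝ → 𝕜)) : Submodule 𝕜 (ℝ → 𝕜) where
  carrier := Set.range (ev U d)
  add_mem' := by
    rintro _ _ ⟨s, rfl⟩ ⟨t, rfl⟩
    exact ⟨tLin 1 1 s t, by rw [ev_tLin, one_smul, one_smul]⟩
  zero_mem' := ⟨tLin 0 0 (tGen 0) (tGen 0), by rw [ev_tLin, zero_smul, add_zero]⟩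
  smul_mem' := by
    rintro c _ ⟨s, rfl⟩
    exact ⟨tLin c 0 s s, by rw [ev_tLin, zero_smul, add_zero]⟩

lemma d_mem (U : Filter ℕ) (d : ℕ → (ℝ → 𝕜)) (n : ℕ) : d n ∈ XS U d :=
  ⟨tGen n, ev_tGen U d n⟩

lemma lim_mem (U : Filter ℕ) [U.NeBot] (d : ℕ → (ℝ → 𝕜)) (x : ℕ → (ℝ → 𝕜))
    (hx : ∀ n, x n ∈ XS U d) (z : ℝ → 𝕜) (hz : Tendsto x U (𝓝 z)) : z ∈ XS U d := by
  choose t ht using hx
  refine ⟨tLim t, ?_⟩
  have h2 : (fun n : ℕ => ev U d (t n)) = x := funext ht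
  have h : ∃ z, Tendsto (fun n : ℕ => ev U d (t n)) U (𝓝 z) := ⟨z, by rw [h2]; exact hz⟩
  rw [ev_tLim, dif_pos h]
  have h1 : Tendsto (fun n : ℕ => ev U d (t n)) U (𝓝 h.choose) := h.choose_spec
  have h3 : Tendsto (fun n : ℕ => ev U d (t n)) U (𝓝 z) := by rw [h2]; exact hz
  exact tendsto_nhds_unique h1 h3

lemma mk_field_le : #𝕜 ≤ 𝔠 := by
  have h1 : Function.Injective (fun z : 𝕜 => (RCLike.re z, RCLike.im z)) := by
    intro z w h
    simp only [Prod.mk.injEq] at h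
    exact RCLike.ext h.1 h.2
  calc #𝕜 ≤ #(ℝ × ℝ) := Cardinal.mk_le_of_injective h1
    _ = 𝔠 := by simp [Cardinal.mk_real]

lemma mk_WType_le : #(WType (Ar 𝕜)) ≤ 𝔠 := by
  refine WType.cardinalMk_le_of_le ?_
  have h1 : ∀ a : Lbl 𝕜, 𝔠 ^ #(Ar 𝕜 a) ≤ 𝔠 := by
    rintro (n | ⟨p⟩ | u)
    · show 𝔠 ^ #Empty ≤ 𝔠
      rw [Cardinal.mk_empty, Cardinal.power_zero]
      exact Cardinal.one_le_aleph0.trans Cardinal.aleph0_le_continuum
    · show 𝔠 ^ #Bool ≤ 𝔠
      have h2 : #Bool = ((2 : ℕ) : Cardinal) := by simp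
      rw [h2, Cardinal.power_natCast]
      exact (Cardinal.power_nat_le Cardinal.aleph0_le_continuum)
    · show 𝔠 ^ #ℕ ≤ 𝔠
      rw [Cardinal.mk_nat, Cardinal.continuum_power_aleph0]
  calc (Cardinal.sum fun a : Lbl 𝕜 => 𝔠 ^ #(Ar 𝕜 a)) ≤ Cardinal.sum fun _ : Lbl 𝕜 => 𝔠 :=
        Cardinal.sum_le_sum _ _ h1
    _ = #(Lbl 𝕜) * 𝔠 := by rw [Cardinal.sum_const']
    _ ≤ 𝔠 * 𝔠 := by
        refine mul_le_mul' ?_ le_rfl
        have h3 : #(Lbl 𝕜) = ℵ₀ + (#𝕜 * #𝕜 + 1) := by simp [Lbl]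
        rw [h3]
        have h4 : #𝕜 * #𝕜 ≤ 𝔠 := by
          calc #𝕜 * #𝕜 ≤ 𝔠 * 𝔠 := mul_le_mul' mk_field_le mk_field_le
            _ = 𝔠 := Cardinal.continuum_mul_self
        calc ℵ₀ + (#𝕜 * #𝕜 + 1) ≤ 𝔠 + (𝔠 + 𝔠) := by
              refine add_le_add Cardinal.aleph0_le_continuum (add_le_add h4 ?_)
              exact Cardinal.one_le_aleph0.trans Cardinal.aleph0_le_continuum
          _ = 𝔠 := by rw [Cardinal.continuum_add_self, Cardinal.continuum_add_self]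
    _ = 𝔠 := Cardinal.continuum_mul_self

lemma exists_notMem (U : Filter ℕ) (d : ℕ → (ℝ → 𝕜)) : ∃ p : ℝ → 𝕜, p ∉ XS U d := by
  by_contra hc
  push Not at hc
  have h1 : Function.Surjective (ev U d) := fun p => hc p
  have h2 : #(ℝ → 𝕜) ≤ #(WType (Ar 𝕜)) := Cardinal.mk_le_of_surjective h1
  have h3 : #(Set ℝ) ≤ #(ℝ → 𝕜) := by
    classical
    refine Cardinal.mk_le_of_injective (f := fun s : Set ℝ => s.indicator (1 : ℝ → 𝕜)) ?_
    intro s t h
    ext x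
    have h4 := congrFun h x
    by_cases hx : x ∈ s <;> by_cases hy : x ∈ t <;> simp [hx, hy] at h4 ⊢
  have h4 : #(Set ℝ) = 2 ^ 𝔠 := by rw [Cardinal.mk_set, Cardinal.mk_real]
  have h5 := (h4 ▸ h3).trans (h2.trans mk_WType_le)
  exact absurd h5 (not_le.2 (Cardinal.cantor _))

/-- a countable dense subset of `ℝ → 𝕜` -/
lemma exists_dense_seq : ∃ d : ℕ → (ℝ → 𝕜), DenseRange d := by
  classical
  have h1 : DenseRange (fun f : C(ℝ, 𝕜) => (f : ℝ → 𝕜)) := by
    intro g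
    rw [mem_closure_iff_nhds]
    intro V hV
    rw [nhds_pi, Filter.mem_pi'] at hV
    obtain ⟨s, t, ht, hsV⟩ := hV
    let P : Polynomial 𝕜 := Lagrange.interpolate s (fun x : ℝ => (x : 𝕜)) g
    let f : C(ℝ, 𝕜) := ⟨fun x => P.eval (x : 𝕜), by
      exact P.continuous.comp RCLike.continuous_ofReal⟩
    refine ⟨f, hsV ?_, f, rfl⟩
    intro x hx
    have h3 : f x = g x := by
      show P.eval (x : 𝕜) = g x
      exact Lagrange.eval_interpolate_at_node g (fun a _ b _ hab => by exact_mod_cast hab) hx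
    rw [h3]
    exact mem_of_mem_nhds (ht x)
  have h2 : Continuous (fun f : C(ℝ, 𝕜) => (f : ℝ → 𝕜)) :=
    continuous_pi fun x => continuous_eval_const x
  refine ⟨fun n => (TopologicalSpace.denseSeq C(ℝ, 𝕜) n : ℝ → 𝕜), ?_⟩
  exact h1.comp (TopologicalSpace.denseRange_denseSeq _) h2

lemma convergesOver_iff {X : Type} [AddCommGroup X] [TopologicalSpace X] {F : Filter ℕ}
    {x : ℕ → X} {y : X} : ConvergesOver F x y ↔ Tendsto x F (𝓝 y) := by
  constructor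
  · intro h V hV
    obtain ⟨A, hA, hAV⟩ := h V hV
    show x ⁻¹' V ∈ F
    exact mem_of_superset hA (fun n hn => hAV n hn)
  · intro h V hV
    exact ⟨x ⁻¹' V, h hV, fun n hn => hn⟩

/-- Cauchy sequences over a free ultrafilter converge in `ℝ → 𝕜` -/
lemma exists_limit (F : Filter ℕ) [F.NeBot] (X : Submodule 𝕜 (ℝ → 𝕜)) (x : ℕ → X)
    (hx : IsCauchyOver F x) : ∃ z : ℝ → 𝕜, Tendsto (fun n => (x n : ℝ → 𝕜)) F (𝓝 z) := by
  have h1 : ∀ t : ℝ, ∃ c : 𝕜, Tendsto (fun n => (x n : ℝ → 𝕜) t) F (𝓝 c) := by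
    intro t
    have h2 : Cauchy (map (fun n => (x n : ℝ → 𝕜) t) F) := by
      rw [Metric.cauchy_iff]
      refine ⟨inferInstance, fun ε hε => ?_⟩
      have h3 : {z : X | ‖(z : ℝ → 𝕜) t‖ < ε} ∈ 𝓝 (0 : X) := by
        have h4 : Continuous fun z : X => ‖(z : ℝ → 𝕜) t‖ :=
          ((continuous_apply t).comp continuous_subtype_val).norm
        have h5 := (isOpen_Iio (a := ε)).preimage h4
        exact h5.mem_nhds (by simpa using hε)
      obtain ⟨B, hB, hB2⟩ := hx _ h3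
      refine ⟨(fun n => (x n : ℝ → 𝕜) t) '' B, image_mem_map hB, ?_⟩
      rintro _ ⟨m, hm, rfl⟩ _ ⟨n, hn, rfl⟩
      rw [dist_eq_norm]
      exact hB2 m hm n hn
    obtain ⟨c, hc⟩ := CompleteSpace.complete h2
    exact ⟨c, hc⟩
  choose z hz using h1
  exact ⟨z, tendsto_pi_nhds.2 hz⟩

/-- Let `𝕜` be `ℝ` or `ℂ`. For every free ultrafilter `𝓤` on `ℕ` there is a Hausdorff topological
vector space over `𝕜` which is complete over `𝓤` but not countably complete. -/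
theorem result (𝕜 : Type) [RCLike 𝕜] (U : Ultrafilter ℕ) (_hU : IsFreeFilter (U : Filter ℕ)) :
    ∃ (X : Type) (_ : AddCommGroup X) (_ : Module 𝕜 X) (_ : TopologicalSpace X),
      IsTopologicalAddGroup X ∧ ContinuousSMul 𝕜 X ∧ T2Space X ∧
        IsCompleteOver X (U : Filter ℕ) ∧ ¬ IsCountablyComplete X := by
  obtain ⟨d, hd⟩ := exists_dense_seq (𝕜 := 𝕜)
  obtain ⟨p, hp⟩ := exists_notMem (U : Filter ℕ) d
  refine ⟨XS (U : Filter ℕ) d, inferInstance, inferInstance, inferInstance, inferInstance,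
    inferInstance, inferInstance, ?_, ?_⟩
  · intro x hx
    obtain ⟨z, hz⟩ := exists_limit (U : Filter ℕ) _ x hx
    have hzX := lim_mem (U : Filter ℕ) d (fun n => (x n : ℝ → 𝕜)) (fun n => (x n).2) z hz
    refine ⟨⟨z, hzX⟩, convergesOver_iff.2 ?_⟩
    rw [tendsto_subtype_rng]
    exact hz
  · intro hcc
    set F : Filter ℕ := comap d (𝓝 p) with hF
    have hne : F.NeBot := by
      rw [hF, comap_neBot_iff]
      intro V hV
      obtain ⟨_, hx1, ⟨n, rfl⟩⟩ := mem_closure_iff_nhds.1 (hd p) V hV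
      exact ⟨n, hx1⟩
    have hlim : Tendsto d F (𝓝 p) := tendsto_comap
    have hfree : IsFreeFilter F := by
      refine ⟨hne, fun A hA => ?_⟩
      have h1 : (d '' Aᶜ)ᶜ ∈ 𝓝 p := by
        refine (hA.image d).isClosed.isOpen_compl.mem_nhds ?_
        rintro ⟨n, -, rfl⟩
        exact hp (d_mem _ d n)
      refine ⟨_, h1, fun n hn => ?_⟩
      by_contra hc
      exact hn ⟨n, hc, rfl⟩
    have hcauchy : IsCauchyOver F (fun n => (⟨d n, d_mem _ d n⟩ : XS (U : Filter ℕ) d)) := by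
      intro V hV
      rw [nhds_subtype_eq_comap] at hV
      obtain ⟨W, hW, hWV⟩ := hV
      have h1 : Tendsto (fun q : ℕ × ℕ => d q.1 - d q.2) (F ×ˢ F) (𝓝 (p - p)) :=
        (hlim.comp tendsto_fst).sub (hlim.comp tendsto_snd)
      rw [sub_self] at h1
      have h2 := h1 hW
      rw [mem_map, mem_prod_self_iff] at h2
      obtain ⟨B, hB, hB2⟩ := h2
      refine ⟨B, hB, fun m hm n hn => hWV ?_⟩
      exact hB2 (Set.mk_mem_prod hm hn)
    obtain ⟨y, hy⟩ := hcc F hfree _ hcauchy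
    rw [convergesOver_iff, tendsto_subtype_rng] at hy
    have h3 : (y : ℝ → 𝕜) = p := tendsto_nhds_unique hy hlim
    exact hp (h3 ▸ y.2)

end Pool.Agent.Results.MP_6ca30a_an.NoUniversalUltrafilter
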